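import Pool.Agent.helper80.SG.Spec3

set_option autoImplicit false

namespace Pool.Agent.SG

open Pool.Agent.SV

theorem BLN_four (k : ℕ) (n : Fin k → ℕ) (h : 4 * (∑ i, n i + 1) ^ 3 ≤ ∏ i, (n i + 1)) : 4 ≤ k := by
  by_contra hk
  have hk3 : k ≤ 3 := by omega
  have h1 : ∏ i, (n i + 1) ≤ (∑ i, n i + 1) ^ k := by
    calc ∏ i, (n i + 1) ≤ ∏ i : Fin k, (∑ i, n i + 1) := by
          refine Finset.prod_le_prod (fun i _ => Nat.zero_le _) fun i _ => ?_
          have : n i ≤ ∑ i, n i := Finset.single_le_sum (f := n) (fun i _ => Nat.zero_le _) (Finset.mem_univ i)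
          omega
      _ = (∑ i, n i + 1) ^ k := by simp
  have h2 : (∑ i, n i + 1) ^ k ≤ (∑ i, n i + 1) ^ 3 := Nat.pow_le_pow_right (by omega) hk3
  have h3 : 0 < (∑ i, n i + 1) ^ 3 := by positivity
  omega

theorem BLN (hMFA : MFA_stmt) (hB2 : B2_stmt) (hB3 : B3_stmt) (hB4 : B4_stmt) (hS11 : S11_stmt)
    (hZ0 : Z0_stmt) : BLN_stmt := by
  intro k n hk hn hH d he1 he2 he3
  by_cases h0 : ∃ i, d i = 0
  · rw [hZ0 k n d hn h0]
    constructor
    · intro h
      exact Or.inl ⟨h0, h⟩
    · rintro (h | h)
      · exact h.2
      · obtain ⟨i, hi⟩ := h0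
        have := h.2 i
        omega
  · have hd : ∀ i, 1 ≤ d i := by
      intro i
      by_contra hi
      exact h0 ⟨i, by omega⟩
    have hR : (((∃ i, d i = 0) ∧ 2 ≤ ∑ i, d i) ∨ (k = 2 ∧ ∀ i, d i = 1)) ↔ (k = 2 ∧ ∀ i, d i = 1) := by
      constructor
      · rintro (h | h)
        · exact absurd h.1 h0
        · exact h
      · intro h
        exact Or.inr h
    rw [hR]
    have hn0 : ∀ (i : Fin k), (∀ i l, 110 * n i ^ 3 ≤ n l ^ 4) → 2 ≤ n i := by
      intro i h
      have h1 := h i i
      by_contra hlt
      have h2 : n i = 1 := by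
        have := hn i
        omega
      rw [h2] at h1
      norm_num at h1
    rcases hH with h | ⟨hk4, h⟩
    · have hk4 := BLN_four k n h
      constructor
      · intro hs
        exact absurd hs (hMFA k n d hn hd h he1)
      · rintro ⟨h2, -⟩
        omega
    · have hcase : k = 2 ∨ k = 3 ∨ k = 4 := by omega
      rcases hcase with rfl | rfl | rfl
      · by_cases h3 : ∃ j, 3 ≤ d j
        · constructor
          · intro hs
            exact absurd hs (hB2 n d hn h hd h3)
          · rintro ⟨-, h1⟩
            obtain ⟨j, hj⟩ := h3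
            have := h1 j
            omega
        · have hall : ∀ i, d i = 1 := by
            intro i
            have h4 : ∀ i, d i ≤ 2 := by
              intro i
              by_contra hi
              exact h3 ⟨i, by omega⟩
            by_contra hi
            refine he2 ⟨rfl, fun i => ⟨hd i, h4 i⟩, i, ?_⟩
            have h5 := hd i
            have h6 := h4 i
            omega
          constructor
          · intro _
            exact ⟨rfl, hall⟩
          · intro _
            exact hS11 n d (fun i => hn0 i h) hall
      · constructor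
        · intro hs
          refine absurd hs (hB3 n d hn h hd ?_)
          by_contra h2
          refine he3 ⟨rfl, fun i => ?_⟩
          have h4 := hd i
          by_contra hi
          exact h2 ⟨i, by omega⟩
        · rintro ⟨h2, -⟩
          omega
      · constructor
        · intro hs
          exact absurd hs (hB4 n d hn h hd)
        · rintro ⟨h2, -⟩
          omega

end Pool.Agent.SG
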